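import Pool.Agent.Helper57.NT.Res3
import Pool.Agent.Helper57.NT.Slc3
import Pool.Agent.Helper57.NT.Curve
import Pool.Agent.Helper57.NT.OneQ
import Pool.Agent.Helper57.NT.Four
import Pool.Agent.Helper57.NT.One
import Pool.Agent.Helper57.NT.Lim
import Pool.Agent.Helper57.NT.Two
import Pool.Agent.Helper57.NT.BM
import Pool.Agent.Helper57.NT.Exc
import Pool.Agent.Helper57.NT.Fibre
import Pool.Agent.Helper57.CD.Ax
import Pool.Agent.Helper57.CD.Main

/-!
# Exponential-algebraic closedness of the complex exponential field in dimension three

`G_n = ℂ^n × (ℂ^*)^n`; its elements are functions on `Fin n ⊕ Fin n` (`Sum.inl`: the coordinates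
`x`, `Sum.inr`: the coordinates `y`).  The exponential points are the points `(z, e^z)`.

Axiom (SEAC) (i) asks, for every free rotund irreducible `V ⊆ G_n`, for a (generic) exponential point
on `V`.  We prove it for `n = 3`: for all free rotund irreducible `V ⊆ G_3`, of any dimension, every
translate `c V` contains an exponential point, and if `V` is defined over a countable field `K` then
almost all translates `c V` contain an exponential point which is generic over `K(c)`.
(`n = 1`, `n = 2`: known.)

Outline of the proof.  Let `X` be the closure of the projection of `V` to `ℂ^3`.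

* `X = ℂ^3`: theorem of Brownawell and Masser (library: `LinearSpacesAtInfinity`).
* `X` a curve: library, `MixedCurves`.
* `dim V ≥ 4` and `X` a surface: the fibres contain surfaces, and one exponential equation has to be
  solved over `X`; there are curves in `X` which lie in no rational plane (for instance plane
  sections), and over such a curve one exponential equation with two terms has a solution.
* `dim V = 3` and `X` a surface `P = 0`; then the generic fibre of `V` over `X` is a curve.  Let `Λ ⊆ ℤ^3` be the group
  of the `m` such that the monomial `y^m` is algebraic over `ℂ(x)` on `V`; its rank is `0`, `1` or `2`.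
  - Rank `0`: the hand-in `FreeFibresOverHypersurfaces` (this run).
  - Rank `2`: reduction to the projection of `V` to `G_2`; there the theorem of Brownawell and Masser or
    `FreeFibresOverHypersurfaces` for `n = 2` gives a Zariski dense set of exponential points, except in
    the exceptional case below.
  - Rank `1`, `Λ = ℤ e_1` (integral coordinates): `y_1` is an algebraic function of the two
    independent functions `x_1, x_3`. On `X` consider the leaves of the foliation `dx_1 = dy_1/y_1`
    on which `e^{x_1} = y_1`, near `x_1 = 2 π i m^2`, `x_3 = e^{m + s}`, `s` in a disc, `m → ∞`.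
    On a leaf the equation of the fibre is an exponential sum `∑_k c_k exp (k_2 x_2 + k_3 x_3)` with
    algebraic coefficients of size `e^{O(m)}`, while `x_2 / e^m` tends to `κ e^s` along an ultrafilter.
    If it had no zeros, its logarithm would be controlled (Borel-Caratheodory) and comparing two
    dominant terms in directions in which they exchange their roles one finds that the logarithmic
    derivatives of two terms agree up to very small errors; as these are algebraic functions of
    polynomial size on the leaves, they agree, and the exponential of a linear form is algebraic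
    along the leaves: this contradicts the theorem of Ax unless the leaves are the curves `x_1 = const`
    and a linear form `k_2 x_2 + k_3 x_3` is constant on them.
* The exceptional case: for some independent integral vectors `m, k` (coordinates `x_1 = m · x`,
  `x_2 = k · x`) the functions `(x_1, x_2, y_1)` map `V` to a curve `C`. The points of `C` with
  `e^{x_1} = y_1` form a sequence `c_N`, `N → ∞`, and then `y_2 = e^{x_2(c_N)}` is determined. It is
  enough to see that the points `(c_N, e^{x_2(c_N)})` are Zariski dense in `C × ℂ^*`; then the last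
  equation, an exponential polynomial in one variable `x_3`, has two terms for some `N` and so it has
  a zero.  If they were not dense, then `x_2 - log A_j`, for finitely many algebraic functions `A_j`
  on `C`, would take values in `2 π i ℤ`; by the theorem of van der Waerden this holds for the same
  `j` on long arithmetic progressions of `N` with bounded difference; these functions have
  polynomial growth and algebraic derivatives, so by differences of high order `x_2 - log A_j` is a
  polynomial in `(x_1 - log y_1) / 2 π i`, and the theorem of Ax shows that `y_1` is constant or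
  `x_2 = q x_1 + c`, `q` rational: this is excluded, since `V` is free.

The generic points in (2) for `dim V > 3` are obtained from generic hyperplane sections.

Parts of the proof are by other members of the team: the equation of the fibre (helper34), the
slope `κ`, the application of the theorem of Ax in the exceptional case and `dim V ≥ 4` over surfaces
(helper42), dominant projections over function fields, rank `2`, generic points for `dim V > 3` and the
final assembly (helper18),
unimodular coordinates (helper82), the normalization in rank `1` (helper7), the reduction of the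
exceptional case to density over the curve (helper15).
-/

set_option autoImplicit false

open MvPolynomial MeasureTheory

namespace Pool.Agent.Results.MP_209724_lc.ClosednessInDimensionThree

/-- `V` is the set of points of `G_n = ℂ^n × (ℂ^*)^n` on which the prime ideal `I` vanishes: an
irreducible subvariety. -/
structure IsVariety {n : ℕ} (I : Ideal (MvPolynomial (Fin n ⊕ Fin n) ℂ))
    (V : Set (Fin n ⊕ Fin n → ℂ)) : Prop where
  prime : I.IsPrime
  points : V = {p | (∀ f ∈ I, eval p f = 0) ∧ ∀ j : Fin n, p (Sum.inr j) ≠ 0}
  nonempty : V.Nonempty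

/-- the coordinates with index in `J` are algebraically independent on `V` -/
def Indep {n : ℕ} (V : Set (Fin n ⊕ Fin n → ℂ)) (J : Finset (Fin n ⊕ Fin n)) : Prop :=
  ∀ f : MvPolynomial (Fin n ⊕ Fin n) ℂ, f.vars ⊆ J → (∀ p ∈ V, eval p f = 0) → f = 0

/-- `dim V = d`: the largest number of algebraically independent coordinates is `d` -/
def HasDim {n : ℕ} (V : Set (Fin n ⊕ Fin n → ℂ)) (d : ℕ) : Prop :=
  (∃ J, J.card = d ∧ Indep V J) ∧ ∀ J, J.card = d + 1 → ¬ Indep V J

/-- `V` is free: it lies in no set `∑ m_j x_j = c` and in no set `∏ y_j ^ m_j = c`, `m ≠ 0`. -/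
structure Free {n : ℕ} (V : Set (Fin n ⊕ Fin n → ℂ)) : Prop where
  add : ∀ m : Fin n → ℤ, m ≠ 0 → ∀ c : ℂ, ∃ p ∈ V, (∑ j : Fin n, (m j : ℂ) * p (Sum.inl j)) ≠ c
  mul : ∀ m : Fin n → ℤ, m ≠ 0 → ∀ c : ℂ, ∃ p ∈ V, (∏ j : Fin n, p (Sum.inr j) ^ (m j)) ≠ c

/-- the action `(x, y) ↦ (M x, y^M)` of an integral matrix -/
noncomputable def act {n : ℕ} (M : Matrix (Fin n) (Fin n) ℤ) (p : Fin n ⊕ Fin n → ℂ) :
    Fin n ⊕ Fin n → ℂ :=
  Sum.elim (fun i => ∑ j, (M i j : ℂ) * p (Sum.inl j)) (fun i => ∏ j, p (Sum.inr j) ^ M i j)

/-- `V` is rotund: `dim M · V ≥ rank M` for all integral matrices `M`: at least `rank M` of the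
coordinates are algebraically independent on `M · V` -/
def Rotund {n : ℕ} (V : Set (Fin n ⊕ Fin n → ℂ)) : Prop :=
  ∀ M : Matrix (Fin n) (Fin n) ℤ, ∃ J : Finset (Fin n ⊕ Fin n),
    J.card = (M.map (Int.cast : ℤ → ℚ)).rank ∧ Indep (act M '' V) J

/-- the translate `c V` -/
def Translate {n : ℕ} (c : Fin n ⊕ Fin n → ℂ) (V : Set (Fin n ⊕ Fin n → ℂ)) :
    Set (Fin n ⊕ Fin n → ℂ) :=
  {p | ∃ u ∈ V, p = Sum.elim (fun i => u (Sum.inl i) + c (Sum.inl i))
    (fun i => c (Sum.inr i) * u (Sum.inr i))}

/-- the exponential point `(z, e^z)` -/
noncomputable def ExpPoint {n : ℕ} (z : Fin n → ℂ) : Fin n ⊕ Fin n → ℂ :=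
  Sum.elim z (fun i => Complex.exp (z i))

/-- `tr.deg_{K(c)} K(c)(z, e^z)` -/
noncomputable def trdegOver {n : ℕ} (K : Subfield ℂ) (c : Fin n ⊕ Fin n → ℂ) (z : Fin n → ℂ) :
    Cardinal :=
  Algebra.trdeg (IntermediateField.adjoin K (Set.range c))
    (IntermediateField.adjoin (IntermediateField.adjoin K (Set.range c)) (Set.range (ExpPoint z)))

/-- **Exponential-algebraic closedness in dimension three.** -/
theorem result (I : Ideal (MvPolynomial (Fin 3 ⊕ Fin 3) ℂ))
    (V : Set (Fin 3 ⊕ Fin 3 → ℂ)) (hV : IsVariety I V) (hfree : Free V) (hrot : Rotund V) :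
    -- (1) exponential points on all translates
    (∀ c : Fin 3 ⊕ Fin 3 → ℂ, (∀ i, c (Sum.inr i) ≠ 0) → ∃ z : Fin 3 → ℂ,
      ExpPoint z ∈ Translate c V) ∧
    -- (2) generic exponential points on almost all translates
    (∀ d : ℕ, HasDim V d → ∀ (K : Subfield ℂ) [Countable K],
      (∃ S : Set (MvPolynomial (Fin 3 ⊕ Fin 3) K),
        I = Ideal.span (MvPolynomial.map (algebraMap K ℂ) '' S)) →
      ∀ᵐ c : Fin 3 ⊕ Fin 3 → ℂ, ∃ z : Fin 3 → ℂ, ExpPoint z ∈ Translate c V ∧
        trdegOver K c z = d) := by
  have cd : Pool.Agent.Helper57.NT.S_cd :=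
    Pool.Agent.Helper57.CD.cd (Pool.Agent.Helper57.CD.ax Pool.Agent.Helper57.CD.size)
  have exc : Pool.Agent.Helper57.NT.S_exc := Pool.Agent.Helper57.NT.exc cd Pool.Agent.Helper57.NT.bm
  have onen : Pool.Agent.Helper57.NT.S_onen :=
    Pool.Agent.Helper57.NT.onen Pool.Agent.Helper57.NT.fibre Pool.Agent.Helper57.NT.lim
  have one : Pool.Agent.Helper57.NT.S_one := Pool.Agent.Helper57.NT.one Pool.Agent.Helper57.NT.uni onen
  have two : Pool.Agent.Helper57.NT.S_two := Pool.Agent.Helper57.NT.two Pool.Agent.Helper57.NT.bm
  have three : Pool.Agent.Helper57.NT.S_three :=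
    Pool.Agent.Helper57.NT.three Pool.Agent.Helper57.NT.uni one two
  have four : Pool.Agent.Helper57.NT.S_four :=
    Pool.Agent.Helper57.NT.four Pool.Agent.Helper57.NT.curve Pool.Agent.Helper57.NT.oneq
  have five : Pool.Agent.Helper57.NT.S_five := Pool.Agent.Helper57.NT.five
  have res := fun I V hV hfree hrot => Pool.Agent.Helper57.NT.Res3.res3 three
    Pool.Agent.Helper57.NT.bm Pool.Agent.Helper57.NT.uni exc four five I V hV hfree hrot
  have h3 : Pool.Agent.Helper57.NT.Res2.Gd 3 := by
    intro I V hV hfree hrot hd K _ hS
    exact_mod_cast (res I V hV hfree hrot).2 hd K hS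
  refine ⟨(res I V ⟨hV.prime, hV.points, hV.nonempty⟩ ⟨hfree.add, hfree.mul⟩ hrot).1, ?_⟩
  intro d hd K _ hS
  have hd3 : 3 ≤ d := by
    by_contra hlt
    obtain ⟨J, hJ, hJi⟩ := hrot 1
    have h1 : ((1 : Matrix (Fin 3) (Fin 3) ℤ).map (Int.cast : ℤ → ℚ)).rank = 3 := by
      rw [Matrix.map_one _ (Int.cast_zero) (Int.cast_one), Matrix.rank_one, Fintype.card_fin]
    rw [h1] at hJ
    obtain ⟨J', hJ', hJ'c⟩ := Finset.exists_subset_card_eq (show d + 1 ≤ J.card by omega)
    refine hd.2 J' hJ'c (fun f hf hf0 => hJi f (hf.trans hJ') ?_)
    rintro _ ⟨p, hp, rfl⟩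
    have h2 : act 1 p = p := by
      funext j
      rcases j with j | j
      · simp [act, Matrix.one_apply]
      · simp only [act, Sum.elim_inr, Matrix.one_apply]
        rw [Finset.prod_eq_single j]
        · simp
        · intro b _ hb
          rw [if_neg (Ne.symm hb), zpow_zero]
        · simp
    rw [h2]
    exact hf0 p hp
  exact Pool.Agent.Helper57.NT.Res2.all_d
    (Pool.Agent.Helper57.NT.Res2.slice_of_comp Pool.Agent.Helper57.NT.Res2.comp) h3 d hd3 I V
    ⟨hV.prime, hV.points, hV.nonempty⟩ ⟨hfree.add, hfree.mul⟩ hrot hd K hS

end Pool.Agent.Results.MP_209724_lc.ClosednessInDimensionThree
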