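import Pool.Agent.Helper57.HT.Core

/-!
# Axiom (SEAC) (i) in the complex exponential field: varieties over hypersurfaces

`G_n = ℂ^n × (ℂ^*)^n`; its elements are functions on `Fin n ⊕ Fin n` (`Sum.inl`: the coordinates
`x`, `Sum.inr`: the coordinates `y`).  The exponential points are the points `(z, e^z)`.

Let `V ⊆ G_n` be irreducible of dimension `n`, and suppose that the closure of its projection to
`ℂ^n` is a hypersurface `P = 0`, `P` irreducible.  The generic fibre of `V` over this hypersurface is
a curve.  We prove that the exponential points are Zariski dense in all translates of `V` if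

* `V` is not contained in a translate `m · x = c` of a rational hyperplane (`m ≠ 0` integral), and
* the leading form of `P` is not a polynomial in the linear forms `m · x` for the integral vectors `m`
  such that the monomial `y^m` is algebraic over `ℂ(x)` on `V`.

The second condition is always fulfilled if no monomial `y^m`, `m ≠ 0`, is algebraic over `ℂ(x)`,
that is, if the generic fibre is a free curve: so in this case no condition on the geometry of the
hypersurface is left.  The first condition cannot be omitted.  If moreover `V` is defined over a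
countable field `K`, then almost all translates `c V` contain an exponential point which is generic
over `K(c)`, as `(SEAC) (i)` asks.

Outline of the proof.  Suppose that there are no exponential points outside of `H = 0`.  By the
theorems of the starting files, the limits of `P` along real dilations and imaginary translations
have no zeros in the directions of the ends of the generic fibre with negative real part.  So the
leading form has an irreducible factor `G`, real up to a constant and not invariant in the direction `a`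
of an end, all of whose real lines in the direction `a` meet `G = 0` in real points.  Take a very general
real zero `κ` of `G` and let `l` be the gradient of `G` at `κ`, a real linear form.  If `l` is parallel to an
integral vector `m` for a generic `κ` then `m · x` divides the leading form, and the theorem on rational
asymptotic hyperplanes (Project RA) applies.  Otherwise `l` is not parallel to any integral vector.
Comparing ends on both sides of `l = 0` one finds that `P` is close to a polynomial in `l` near the ray
`i τ^3 κ`, `τ → ∞` (Newton polygon), so the hypersurface has pieces near this ray on which `l · u` is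
bounded.  On these pieces, transport the ends along an integral vector `m` close to the direction of
`l`: an exponential point is found in a family of balls around points `2 π i M` with `m · M` fixed and
`l · M` bounded, unless the functions `y_i` over these pieces approach exponential functions of the
coordinate `l · u`; as these are algebraic and `l` is not parallel to an integral vector, this is
impossible (a rigidity argument replacing the theorem of Ax).
-/

set_option autoImplicit false

open MvPolynomial MeasureTheory Filter Topology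

namespace Pool.Agent.Results.MP_209724_lc.FreeFibresOverHypersurfaces

/-- `V` is the set of points of `G_n = ℂ^n × (ℂ^*)^n` on which the prime ideal `I` vanishes: an
irreducible subvariety. -/
structure IsVariety {n : ℕ} (I : Ideal (MvPolynomial (Fin n ⊕ Fin n) ℂ))
    (V : Set (Fin n ⊕ Fin n → ℂ)) : Prop where
  prime : I.IsPrime
  points : V = {p | (∀ f ∈ I, eval p f = 0) ∧ ∀ j : Fin n, p (Sum.inr j) ≠ 0}
  nonempty : V.Nonempty

/-- the coordinates with index in `J` are algebraically independent on `V` -/
def Indep {n : ℕ} (V : Set (Fin n ⊕ Fin n → ℂ)) (J : Finset (Fin n ⊕ Fin n)) : Prop :=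
  ∀ f : MvPolynomial (Fin n ⊕ Fin n) ℂ, f.vars ⊆ J → (∀ p ∈ V, eval p f = 0) → f = 0

/-- `dim V = d`: the largest number of algebraically independent coordinates is `d` -/
def HasDim {n : ℕ} (V : Set (Fin n ⊕ Fin n → ℂ)) (d : ℕ) : Prop :=
  (∃ J, J.card = d ∧ Indep V J) ∧ ∀ J, J.card = d + 1 → ¬ Indep V J

/-- the closure of the projection of `V` to `ℂ^n` is the hypersurface `P = 0` -/
def ProjectsOnto {n : ℕ} (V : Set (Fin n ⊕ Fin n → ℂ)) (P : MvPolynomial (Fin n) ℂ) : Prop :=
  Irreducible P ∧ ∀ f : MvPolynomial (Fin n) ℂ,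
    (∀ p ∈ V, eval (fun l => p (Sum.inl l)) f = 0) ↔ P ∣ f

/-- the monomial `y^m` is algebraic over `ℂ(x)` on `V` -/
def MonomialAlgebraic {n : ℕ} (V : Set (Fin n ⊕ Fin n → ℂ)) (P : MvPolynomial (Fin n) ℂ)
    (m : Fin n → ℤ) : Prop :=
  ∃ A : Polynomial (MvPolynomial (Fin n) ℂ), (∃ b, ¬ P ∣ A.coeff b) ∧
    ∀ p ∈ V, (A.map (eval fun l => p (Sum.inl l))).eval (∏ l, p (Sum.inr l) ^ m l) = 0

/-- the translate `c V` -/
def Translate {n : ℕ} (c : Fin n ⊕ Fin n → ℂ) (V : Set (Fin n ⊕ Fin n → ℂ)) :
    Set (Fin n ⊕ Fin n → ℂ) :=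
  {p | ∃ u ∈ V, p = Sum.elim (fun i => u (Sum.inl i) + c (Sum.inl i))
    (fun i => c (Sum.inr i) * u (Sum.inr i))}

/-- the exponential point `(z, e^z)` -/
noncomputable def ExpPoint {n : ℕ} (z : Fin n → ℂ) : Fin n ⊕ Fin n → ℂ :=
  Sum.elim z (fun i => Complex.exp (z i))

/-- `tr.deg_{K(c)} K(c)(z, e^z)` -/
noncomputable def trdegOver {n : ℕ} (K : Subfield ℂ) (c : Fin n ⊕ Fin n → ℂ) (z : Fin n → ℂ) :
    Cardinal :=
  Algebra.trdeg (IntermediateField.adjoin K (Set.range c))
    (IntermediateField.adjoin (IntermediateField.adjoin K (Set.range c)) (Set.range (ExpPoint z)))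

theorem result {n : ℕ} (I : Ideal (MvPolynomial (Fin n ⊕ Fin n) ℂ))
    (V : Set (Fin n ⊕ Fin n → ℂ)) (hV : IsVariety I V) (hdim : HasDim V n)
    (P : MvPolynomial (Fin n) ℂ) (hP : ProjectsOnto V P)
    -- the leading form of `P` is not a polynomial in the linear forms `m · x`, `y^m` algebraic
    (hlead : homogeneousComponent P.totalDegree P ∉ Algebra.adjoin ℂ
      {g : MvPolynomial (Fin n) ℂ | ∃ m : Fin n → ℤ, MonomialAlgebraic V P m ∧
        g = ∑ l, C (m l : ℂ) * X l})
    -- `V` is not contained in a translate of a rational hyperplane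
    (hfree : ∀ m : Fin n → ℤ, m ≠ 0 → ∀ c : ℂ, ∃ p ∈ V, ∑ l, (m l : ℂ) * p (Sum.inl l) ≠ c) :
    -- (1) exponential points are Zariski dense in all translates of `V`
    (∀ c : Fin n ⊕ Fin n → ℂ, (∀ i, c (Sum.inr i) ≠ 0) →
      ∀ H : MvPolynomial (Fin n ⊕ Fin n) ℂ, (∃ p ∈ Translate c V, eval p H ≠ 0) →
      ∃ z : Fin n → ℂ, ExpPoint z ∈ Translate c V ∧ eval (ExpPoint z) H ≠ 0) ∧
    -- (2) generic exponential points on almost all translates
    (∀ (K : Subfield ℂ) [Countable K],
      (∃ S : Set (MvPolynomial (Fin n ⊕ Fin n) K),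
        I = Ideal.span (MvPolynomial.map (algebraMap K ℂ) '' S)) →
      ∀ᵐ c : Fin n ⊕ Fin n → ℂ, ∃ z : Fin n → ℂ, ExpPoint z ∈ Translate c V ∧
        trdegOver K c z = n) := by
  have part1 : ∀ c : Fin n ⊕ Fin n → ℂ, (∀ i, c (Sum.inr i) ≠ 0) →
      ∀ H : MvPolynomial (Fin n ⊕ Fin n) ℂ, (∃ p ∈ Translate c V, eval p H ≠ 0) →
      ∃ z : Fin n → ℂ, ExpPoint z ∈ Translate c V ∧ eval (ExpPoint z) H ≠ 0 := by
    intro c hc H hH
    have hV' := Pool.Agent.Q72.EG.isVar_trs hc (I := I) (V := V) ⟨hV.prime, hV.points, hV.nonempty⟩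
    have hd' := Pool.Agent.Q72.EG.hasDim_trs hc (V := V) (d := n) hdim
    have hP' := Pool.Agent.Q72.EG.projEq_trs c (V := V) (P := P) hP
    obtain ⟨E, iE, aE, x, y, hxy, hpt, hx, hy, htr, -, hmn⟩ :=
      Pool.Agent.Q98.EG.fld n _ _ _ hV' hd' hP'
    obtain ⟨p0, hp0, hpH⟩ := hH
    obtain ⟨z, hz, hz2⟩ := Pool.Agent.Helper57.HT.core hP'.1 hx hy htr
      (by
        have h1 := Pool.Agent.Q72.EG.top_sh (fun i => c (Sum.inl i)) P
        unfold Pool.Agent.Q72.EG.top at h1
        rw [h1]
        intro h2
        apply hlead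
        refine Algebra.adjoin_mono ?_ h2
        rintro g ⟨m, hm, rfl⟩
        refine ⟨m, ?_, rfl⟩
        by_contra h3
        exact hmn m (fun h => h3 (Pool.Agent.Q72.EG.monAlg_trs hc h)) hm)
      (by
        intro m a hm ha
        rw [← hP'.2] at ha
        obtain ⟨p, hp, hpa⟩ := hfree m hm (a - ∑ l, (m l : ℂ) * c (Sum.inl l))
        apply hpa
        have h1 := ha _ ⟨p, hp, rfl⟩
        rw [map_sub, eval_C, Pool.Agent.Helper57.RA.eval_linm] at h1
        simp only [Pool.Agent.Helper57.RA.mu, Sum.elim_inl, mul_add, Finset.sum_add_distrib] at h1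
        linear_combination h1)
      (H := H) (fun h => hpH ((hxy H).1 h _ hp0))
    exact ⟨z, (hpt _).2 ⟨hz, fun j => Complex.exp_ne_zero _⟩, hz2⟩
  refine ⟨part1, ?_⟩
  rintro K hK ⟨S, hS⟩
  obtain ⟨-, hd⟩ := hdim
  have h1 := Pool.Agent.Y563.SE.generic_pts I V hV.prime hV.points hV.nonempty (by
    intro J' hJ'
    have h1 := hd J' hJ'
    unfold Indep at h1
    push Not at h1
    obtain ⟨f, h2, h3, h4⟩ := h1
    exact ⟨f, h4, h2, h3⟩) K S hS
  have h2 : ∀ᵐ c : Fin n ⊕ Fin n → ℂ, ∀ i : Fin n, c (Sum.inr i) ≠ 0 := by
    rw [ae_all_iff]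
    intro i
    rw [ae_iff]
    simp only [not_not]
    exact Pool.Agent.Y563.SE.null_fintype (fun c : Fin n ⊕ Fin n → ℂ => c (Sum.inr i))
      (differentiable_apply _) ⟨fun _ => 1, one_ne_zero⟩
  filter_upwards [h1, h2] with c hc1 hc2
  obtain ⟨u, hu⟩ := hV.nonempty
  obtain ⟨z, hz, -⟩ := part1 c hc2 1 ⟨_, ⟨u, hu, rfl⟩, by simp⟩
  exact ⟨z, hz, hc1 z hz⟩

end Pool.Agent.Results.MP_209724_lc.FreeFibresOverHypersurfaces
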