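import Mathlib
import Pool.Agent.Helper78.EC.QnY2

/-!
# Generic exponential points on towers of curves

Axiom (SEAC) (i) for the complex exponential function asks for an exponential point `(z, e^z)` on every
free rotund irreducible variety `V ⊆ G_n = ℂⁿ × (ℂ^*)ⁿ` which is a generic point of `V` over a given
finitely generated field.  An irreducible variety `V` over `ℂ` is given here by a generic point
`(α, β)` with coordinates in a field `L` which contains `ℂ` (for instance by the coordinate functions in
the function field of `V`).  `V` is called a tower if for `i = 1, …, n` the numbers `α_i`, `β_i` are not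
both algebraic over `ℂ(α_1, …, α_{i-1}, β_1, …, β_{i-1})`, i.e. if all fibres of the projections of `V`
to `G_1, …, G_n` have positive dimension.

We prove unconditionally: every countable set of complex numbers is contained in a countable closed field
`E` (algebraically closed, closed under exponentials, logarithms and all solutions `z` of nontrivial
equations `p(z, e^z) = 0` over `E`) such that for all `n` and all irreducible `V ⊆ G_n` which are towers
after a change of coordinates in `GL_n(ℤ)`, the following are equivalent:

* for every finite set `S` there is an exponential point of `V` which is generic over `E(S)`;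
* no quotient `(m · α, β^m)`, `m ∈ ℤⁿ`, `m ≠ 0`, lies on a translate by a point `(c, e^c)` of a curve
  which is defined over `E`.
-/

set_option autoImplicit false

namespace Pool.Agent.Results.MP_209724_lc.GenericPointsOnTowers

open Set MvPolynomial Pool.Agent.Helper78.EC

/-- The field `G` is closed: `e^z ∈ G` for `z ∈ G`, and `z ∈ G` whenever `z` and `e^z` are algebraically
dependent over `G`. (So `G` is algebraically closed and contains the logarithms of its elements.) -/
structure Closed (G : IntermediateField ℚ ℂ) : Prop where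
  exp_mem : ∀ z ∈ G, Complex.exp z ∈ G
  rel_mem : ∀ z : ℂ, ¬ AlgebraicIndependent G ![z, Complex.exp z] → z ∈ G

variable {L : Type} [Field L] [Algebra ℂ L] {n : ℕ}

/-- `α_i` and `β_i` are not both algebraic over `ℂ(α_1, …, α_{i-1}, β_1, …, β_{i-1})`. -/
def IsTower (α β : Fin n → L) : Prop :=
  ∀ i : Fin n, ¬ (IsAlgebraic (IntermediateField.adjoin ℂ {x | ∃ j < i, x = α j ∨ x = β j}) (α i) ∧
    IsAlgebraic (IntermediateField.adjoin ℂ {x | ∃ j < i, x = α j ∨ x = β j}) (β i))

/-- The coordinates `A α` after a change of coordinates. -/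
def mulA (A : Matrix (Fin n) (Fin n) ℤ) (α : Fin n → L) : Fin n → L := fun i => ∑ j, (A i j : L) * α j

/-- The coordinates `β^A` after a change of coordinates. -/
def powA (A : Matrix (Fin n) (Fin n) ℤ) (β : Fin n → L) : Fin n → L := fun i => ∏ j, β j ^ A i j

/-- `(z, e^z)` is a generic point over `E(S)` of the variety with the generic point `(α, β)`: it
satisfies the same polynomial relations over `E(S)` as `(α, β)`. -/
def GenericPoint (E : IntermediateField ℚ ℂ) (S : Finset ℂ) (α β : Fin n → L) (z : Fin n → ℂ) : Prop :=
  ∀ P : MvPolynomial (Fin n ⊕ Fin n) (IntermediateField.adjoin ℚ ((E : Set ℂ) ∪ S)),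
    aeval (Sum.elim z (fun i => Complex.exp (z i))) P = 0 ↔ aeval (Sum.elim α β) P = 0

/-- No quotient `(m · α, β^m)` lies on a translate by a point `(c, e^c)` of a curve over `E`. -/
def NoSpecialQuotient (E : IntermediateField ℚ ℂ) (α β : Fin n → L) : Prop :=
  ∀ m : Fin n → ℤ, m ≠ 0 → ∀ c : ℂ, AlgebraicIndependent E
    ![∑ i, (m i : L) * α i - algebraMap ℂ L c,
      (algebraMap ℂ L (Complex.exp c))⁻¹ * ∏ i, β i ^ m i]

/-- **Main result.** -/
theorem result (A₀ : Set ℂ) (hA₀ : A₀.Countable) :
    ∃ E : IntermediateField ℚ ℂ, A₀ ⊆ E ∧ (E : Set ℂ).Countable ∧ Closed E ∧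
      ∀ (L : Type) [Field L] [Algebra ℂ L] (n : ℕ) (α β : Fin n → L), (∀ i, β i ≠ 0) →
        (∃ A : Matrix (Fin n) (Fin n) ℤ, IsUnit A.det ∧ IsTower (mulA A α) (powA A β)) →
        ((∀ S : Finset ℂ, ∃ z : Fin n → ℂ, GenericPoint E S α β z) ↔ NoSpecialQuotient E α β) := by
  let K : IntermediateField ℚ ℂ := IntermediateField.adjoin ℚ A₀
  have hK : Countable K := by
    have h1 : Countable (Qn.hull A₀) := Qn.countable_hull hA₀
    have h2 : K ≤ Qn.hull A₀ := IntermediateField.adjoin_le_iff.2 (Qn.subset_hull A₀)
    exact (Set.countable_coe_iff.2 ((Set.countable_coe_iff.1 h1).mono h2))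
  have hc : Countable (Closure.ecl K) := Closure.countable hK
  have hE := Qn.hc_ecl K
  refine ⟨Closure.ecl K, fun x hx => Closure.le_ecl (IntermediateField.subset_adjoin _ _ hx),
    Set.countable_coe_iff.1 hc, ⟨hE.1, hE.2⟩, ?_⟩
  rintro L _ _ n α β hβ ⟨A, hA, ht⟩
  exact Qn.criterion hc hE Qn.schanuel hβ hA ht

end Pool.Agent.Results.MP_209724_lc.GenericPointsOnTowers
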