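import Mathlib
import Pool.Agent.Helper78.EC.QnH
import Pool.Agent.Helper57.TU.Iso

/-!
# Homogeneity of the complex exponential field over a countable subfield

A field `G` of complex numbers is called closed if `e^z ∈ G` for all `z ∈ G` and if `z ∈ G` for all
numbers `z` such that `z` and `e^z` are algebraically dependent over `G`.  So closed fields are
algebraically closed and contain the exponentials and the logarithms of their elements and all the
solutions `z` of all equations `p(z, e^z) = 0` with `p ≠ 0` over `G`.  The hull of a set is the smallest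
closed field which contains it.

Tuples `a` and `a'` have the same type over `B` if there is an isomorphism over `B` of the hulls of
`B ∪ a` and `B ∪ a'`, as exponential fields, with `a ↦ a'`, which preserves in both directions the
solvability in `ℂ³` of all systems of polynomial equations in `z_1, z_2, z_3, e^{z_1}, e^{z_2}, e^{z_3}`
over the hulls.

We prove unconditionally: every countable set of complex numbers is contained in a countable closed
field `E` such that the following holds.

* Self-sufficient tuples `a` and `a'` (defined as in the theory of Zilber's pseudo-exponential fields: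
  the predimension `td_E(a, e^a) - n` is minimal among the tuples which generate `a` over `E`) have the
  same type over `E` if and only if `a, e^{a/N}` and `a', e^{a'/N}` satisfy the same polynomial relations
  over `E`, `N = 1, 2, …`
* Every tuple is contained in the rational span of a self-sufficient tuple modulo `E`.
* There are only countably many types of `n`-tuples over `E`.
* All `n`-tuples outside of a set of Hausdorff dimension at most `2 n - 2`, and for `n = 1` all numbers
  outside of `E`, have the same type over every subset `B` of `E`.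
* So for all first order formulas `φ` in the language of exponential fields with predicates for the
  solvability in `ℂ³` of systems of equations, and with parameters in `B ⊆ E`, the set of all `a ∈ ℂ^n`
  such that `φ(a)` is true in the hull of `B ∪ a`, or its complement, has Hausdorff dimension at most
  `2 n - 2`, and for `n = 1` it is contained in `E`.  For instance, all subsets of `ℂ` defined by Boolean
  combinations of existential formulas `∃ z_1 z_2 z_3, P_1 = ⋯ = P_k = 0`, `P_i` polynomials in
  `x, e^x, z, e^z` (or in `x, e^x, e^{e^x}, …, z, e^z`) are countable or co-countable: a special case of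
  Zilber's quasiminimality conjecture.

Outline of the proof. The isomorphisms of the hulls are constructed by back and forth, one variable
equations at a time. Let `F` be the hull of `E ∪ a`; it is strong in `ℂ`: `w_1, …, w_r` independent modulo
`F` satisfy `td_F(w, e^w) ≥ r` (theorem of Ax and self-sufficiency). Let `z ∈ ℂ³` be a solution of a system
over `F`. Then `z = N w + f`, `N` an integral matrix, `f ∈ F³`, `w ∈ ℂ³` independent modulo `F`. The variety of
all specializations of `(w, e^w)` over `F` is moved by the isomorphism to a variety `V` over the other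
field `F'`. As `F` is strong and closed, `V` is free and rotund, and this remains true for `V` over `ℂ`, as
the fields are algebraically closed. So `V` contains an exponential point `(w', e^{w'})` by the theorem
`ClosednessInDimensionThree` (this run), and `z' = N w' + f'` is a solution of the second system.

Results of earlier runs (problem MP_a12702_lc: `IsomorphicClosures`, `IsomorphicTuples`,
`IsomorphicExponentialClosures`, `TwoUnknowns`) concern generic tuples, i.e. the last two points, for
isomorphisms without systems in three unknowns.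
-/

set_option autoImplicit false

namespace Pool.Agent.Results.MP_209724_lc.IsomorphicHulls

open Module Set Pool.Agent.Helper78.SC Pool.Agent.Helper78.EC Pool.Agent.Helper78.SC.Cov
open scoped ENNReal

/-- The field `G` is closed: `e^z ∈ G` for `z ∈ G`, and `z ∈ G` whenever `z` and `e^z` are algebraically
dependent over `G`. -/
structure Closed (G : IntermediateField ℚ ℂ) : Prop where
  exp_mem : ∀ z ∈ G, Complex.exp z ∈ G
  rel_mem : ∀ z : ℂ, ¬ AlgebraicIndependent G ![z, Complex.exp z] → z ∈ G

/-- The hull of a set: the smallest closed field which contains it. -/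
noncomputable def hull (A : Set ℂ) : IntermediateField ℚ ℂ := sInf {G | Closed G ∧ A ⊆ G}

/-- The system of the equations `P(z_1, z_2, z_3, e^{z_1}, e^{z_2}, e^{z_3}) = 0`, `P ∈ S`, with
coefficients mapped to `ℂ` by `σ`, has a solution `z ∈ ℂ³`. -/
def Solvable {F : IntermediateField ℚ ℂ} (σ : F →+* ℂ)
    (S : Set (MvPolynomial (Fin 3 ⊕ Fin 3) F)) : Prop :=
  ∃ z : Fin 3 → ℂ, ∀ P ∈ S,
    MvPolynomial.eval₂ σ (Sum.elim z (fun i => Complex.exp (z i))) P = 0

/-- There is an isomorphism `φ` of the exponential fields `F` and `F'` which fixes the elements of `A` and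
sends `a_j` to `a'_j`, such that a system over `F` in three unknowns has a solution in `ℂ³` if and only if
its image under `φ` has a solution in `ℂ³`. -/
def IsoOver (A : Set ℂ) (F F' : IntermediateField ℚ ℂ) {n : ℕ} (a a' : Fin n → ℂ) : Prop :=
  ∃ φ : F ≃+* F', (∀ z : F, (z : ℂ) ∈ A → (φ z : ℂ) = z) ∧
    (∀ (z : F) (j : Fin n), (z : ℂ) = a j → (φ z : ℂ) = a' j) ∧
    (∀ z w : F, (w : ℂ) = Complex.exp z → (φ w : ℂ) = Complex.exp (φ z)) ∧
    ∀ S : Set (MvPolynomial (Fin 3 ⊕ Fin 3) F),
      Solvable (algebraMap F ℂ) S ↔ Solvable ((algebraMap F' ℂ).comp (φ : F →+* F')) S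

/-- `a` and `a'` have the same type over `A`. -/
def SameType (A : Set ℂ) {n : ℕ} (a a' : Fin n → ℂ) : Prop :=
  IsoOver A (hull (A ∪ range a)) (hull (A ∪ range a')) a a'

/-- The transcendence degree over `E` of `E(z, e^z)`. -/
noncomputable def td (E : IntermediateField ℚ ℂ) {n : ℕ} (z : Fin n → ℂ) : Cardinal :=
  Algebra.trdeg E (IntermediateField.adjoin E (range z ∪ range fun i => Complex.exp (z i)))

/-- `z_1, …, z_n` are linearly independent over `ℚ` modulo `E`. -/
def Indep (E : IntermediateField ℚ ℂ) {n : ℕ} (z : Fin n → ℂ) : Prop :=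
  ∀ q : Fin n → ℚ, ∑ i, (q i : ℂ) * z i ∈ E → q = 0

/-- `x` is a rational linear combination of `z_1, …, z_n` modulo `E`. -/
def InSpan (E : IntermediateField ℚ ℂ) {n : ℕ} (z : Fin n → ℂ) (x : ℂ) : Prop :=
  ∃ q : Fin n → ℚ, x - ∑ i, (q i : ℂ) * z i ∈ E

/-- `a` is self-sufficient over `E`: it is independent modulo `E`, and the difference of the
transcendence degree of `E(z, e^z)` over `E` and the number `k` of the elements of `z` is not smaller
for the independent tuples `z` which have `a` in their span. -/
structure SelfSufficient (E : IntermediateField ℚ ℂ) {n : ℕ} (a : Fin n → ℂ) : Prop where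
  indep : Indep E a
  le : ∀ (k : ℕ) (z : Fin k → ℂ), Indep E z → (∀ j, InSpan E z (a j)) → td E a + k ≤ td E z + n

/-- `a, e^{a/N}` and `a', e^{a'/N}` satisfy the same polynomial relations over `E`, for all `N`. -/
def SameRelations (E : IntermediateField ℚ ℂ) {n : ℕ} (a a' : Fin n → ℂ) : Prop :=
  ∀ N : ℕ, 0 < N → ∀ P : MvPolynomial (Fin n ⊕ Fin n) E,
    MvPolynomial.aeval (Sum.elim a (fun i => Complex.exp (a i / N))) P = 0 ↔
      MvPolynomial.aeval (Sum.elim a' (fun i => Complex.exp (a' i / N))) P = 0

theorem closed_hull (A : Set ℂ) : Closed (hull A) := by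
  constructor
  · intro z hz
    rw [hull, IntermediateField.mem_sInf] at hz ⊢
    exact fun G hG => hG.1.exp_mem z (hz G hG)
  · intro z hz
    rw [hull, IntermediateField.mem_sInf]
    intro G hG
    refine hG.1.rel_mem z (fun h => hz (Qn.algInd_mono ?_ h))
    exact sInf_le hG

theorem subset_hull (A : Set ℂ) : A ⊆ hull A := by
  intro x hx
  rw [hull, SetLike.mem_coe, IntermediateField.mem_sInf]
  exact fun G hG => hG.2 hx

/-! ### First order formulas -/

/-- The function symbols of the language of exponential fields with names for the elements of `B`. -/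
inductive Fn (B : Set ℂ) : ℕ → Type
  | zero : Fn B 0
  | one : Fn B 0
  | add : Fn B 2
  | mul : Fn B 2
  | exp : Fn B 1
  | par : B → Fn B 0

/-- The language of exponential fields with names for the elements of `B` and with a `k`-ary predicate
for every system of polynomials over `ℤ` in the variables `z_1, z_2, z_3`, `e^{z_1}, e^{z_2}, e^{z_3}` and
`c_1, …, c_k`. -/
def L3 (B : Set ℂ) : FirstOrder.Language :=
  ⟨Fn B, fun k => Set (MvPolynomial ((Fin 3 ⊕ Fin 3) ⊕ Fin k) ℤ)⟩

/-- The hull of `B ∪ a` as a structure for this language: the predicate of a system `S` is true for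
`c_1, …, c_k` if the system `P(z, e^z, c) = 0`, `P ∈ S`, has a solution `z ∈ ℂ³`. -/
noncomputable instance str (B : Set ℂ) {n : ℕ} (a : Fin n → ℂ) :
    (L3 B).Structure (hull (B ∪ range a)) where
  funMap := fun {_} f => match f with
    | Fn.zero => fun _ => 0
    | Fn.one => fun _ => 1
    | Fn.add => fun v => v 0 + v 1
    | Fn.mul => fun v => v 0 * v 1
    | Fn.exp => fun v => ⟨Complex.exp (v 0), (closed_hull _).exp_mem _ (v 0).2⟩
    | Fn.par b => fun _ => ⟨b, subset_hull _ (Or.inl b.2)⟩
  RelMap := fun {k} (S : Set (MvPolynomial ((Fin 3 ⊕ Fin 3) ⊕ Fin k) ℤ)) v =>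
    ∃ z : Fin 3 → ℂ, ∀ P ∈ S, MvPolynomial.aeval
      (Sum.elim (Sum.elim z (fun i => Complex.exp (z i))) (fun j => ((v j : _) : ℂ))) P = 0

/-- The set of the `n`-tuples `a` such that `φ(a)` is true in the hull of `B ∪ a`. -/
def truth (B : Set ℂ) {n : ℕ} (φ : (L3 B).Formula (Fin n)) : Set (Fin n → ℂ) :=
  {a | φ.Realize (fun j => (⟨a j, subset_hull _ (Or.inr ⟨j, rfl⟩)⟩ : hull (B ∪ range a)))}

/-! ### Proofs -/

theorem closed_iff {G : IntermediateField ℚ ℂ} : Closed G ↔ Qn.HC G :=
  ⟨fun h => ⟨h.1, h.2⟩, fun h => ⟨h.1, h.2⟩⟩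

theorem hull_eq (A : Set ℂ) : hull A = Qn.hull A := by
  unfold hull Qn.hull
  simp only [closed_iff]

theorem sameType_iff {A : Set ℂ} {n : ℕ} {a a' : Fin n → ℂ} : SameType A a a' ↔
    Pool.Agent.Helper57.TU.IsoT A (Qn.hull (A ∪ range a)) (Qn.hull (A ∪ range a')) a a' := by
  unfold SameType
  rw [hull_eq, hull_eq]
  rfl

theorem td_eq (E : IntermediateField ℚ ℂ) {n : ℕ} (z : Fin n → ℂ) :
    td E z = ((Low.R E (pt z) : ℕ) : Cardinal) := Low.td_eq_R E z

theorem ss_iff {E : IntermediateField ℚ ℂ} {n : ℕ} {a : Fin n → ℂ} :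
    SelfSufficient E a ↔ Qn.Ind E a ∧ Qn.SS E a := by
  have h : ∀ (k : ℕ) (z : Fin k → ℂ), td E a + k ≤ td E z + n ↔
      Low.R E (pt a) + k ≤ Low.R E (pt z) + n := by
    intro k z
    rw [td_eq, td_eq]
    exact_mod_cast Iff.rfl
  constructor
  · intro h1
    exact ⟨h1.1, fun k z hz ha => (h k z).1 (h1.2 k z hz ha)⟩
  · intro h1
    exact ⟨h1.1, fun k z hz ha => (h k z).2 (h1.2 k z hz ha)⟩

/-- true formulas are preserved -/
theorem truth_iff {B : Set ℂ} {n : ℕ} {a a' : Fin n → ℂ} (h : SameType B a a')
    (φ : (L3 B).Formula (Fin n)) : a ∈ truth B φ ↔ a' ∈ truth B φ := by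
  obtain ⟨f, h1, h2, h3, h0⟩ := h
  let g : (L3 B).Equiv (hull (B ∪ range a)) (hull (B ∪ range a')) :=
    { toEquiv := f.toEquiv
      map_fun' := by
        intro m s v
        cases s with
        | zero => exact map_zero f
        | one => exact map_one f
        | add => exact map_add f _ _
        | mul => exact map_mul f _ _
        | exp =>
          apply Subtype.ext
          exact h3 (v 0) _ rfl
        | par b =>
          apply Subtype.ext
          exact h1 _ b.2
      map_rel' := by
        intro k S₀ v
        let S : Set (MvPolynomial ((Fin 3 ⊕ Fin 3) ⊕ Fin k) ℤ) := S₀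
        let T : Set (MvPolynomial (Fin 3 ⊕ Fin 3) (hull (B ∪ range a))) :=
          (fun P : MvPolynomial ((Fin 3 ⊕ Fin 3) ⊕ Fin k) ℤ => MvPolynomial.aeval
            (Sum.elim MvPolynomial.X (fun j => MvPolynomial.C (v j))) P) '' S
        have hT : ∀ σ : hull (B ∪ range a) →+* ℂ, Solvable σ T ↔ ∃ z : Fin 3 → ℂ, ∀ P ∈ S,
            MvPolynomial.aeval (Sum.elim (Sum.elim z (fun i => Complex.exp (z i)))
              (fun j => σ (v j))) P = 0 := by
          intro σ
          unfold Solvable
          refine exists_congr fun z => ?_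
          rw [Set.forall_mem_image]
          refine forall₂_congr fun P _ => ?_
          have h4 : (MvPolynomial.eval₂Hom σ (Sum.elim z (fun i => Complex.exp (z i)))).comp
              (MvPolynomial.aeval (R := ℤ) (Sum.elim MvPolynomial.X
                (fun j => MvPolynomial.C (v j)) : (Fin 3 ⊕ Fin 3) ⊕ Fin k →
                  MvPolynomial (Fin 3 ⊕ Fin 3) (hull (B ∪ range a)))).toRingHom =
              (MvPolynomial.aeval (R := ℤ) (Sum.elim (Sum.elim z (fun i => Complex.exp (z i)))
              (fun j => σ (v j))) : MvPolynomial ((Fin 3 ⊕ Fin 3) ⊕ Fin k) ℤ →ₐ[ℤ] ℂ).toRingHom := by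
            apply MvPolynomial.ringHom_ext
            · intro r
              simp
            · rintro (i | i)
              · simp
              · simp
          have h5 := DFunLike.congr_fun h4 P
          have h6 : MvPolynomial.eval₂ σ (Sum.elim z (fun i => Complex.exp (z i)))
              (MvPolynomial.aeval (Sum.elim MvPolynomial.X (fun j => MvPolynomial.C (v j)) :
                (Fin 3 ⊕ Fin 3) ⊕ Fin k → MvPolynomial (Fin 3 ⊕ Fin 3) (hull (B ∪ range a))) P) =
              MvPolynomial.aeval (Sum.elim (Sum.elim z (fun i => Complex.exp (z i)))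
              (fun j => σ (v j))) P := h5
          rw [h6]
        have h7 := h0 T
        rw [hT, hT] at h7
        exact h7.symm }
  have h4 : (g : _ → _) ∘ (fun j : Fin n =>
      (⟨a j, subset_hull _ (Or.inr ⟨j, rfl⟩)⟩ : hull (B ∪ range a))) =
      fun j : Fin n => (⟨a' j, subset_hull _ (Or.inr ⟨j, rfl⟩)⟩ : hull (B ∪ range a')) := by
    funext j
    apply Subtype.ext
    exact h2 _ j rfl
  change φ.Realize _ ↔ φ.Realize _
  rw [← h4]
  exact (FirstOrder.Language.StrongHomClass.realize_formula g φ).symm

/-- **Main result.** Every countable set `A` of complex numbers is contained in a countable closed field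
`E` with the following properties. (1) Self-sufficient tuples have the same type over `E` if and only if
they satisfy the same relations over `E`. (2) Every tuple is contained in the span of a self-sufficient
one. (3) There are only countably many types of `n`-tuples over `E`. (4) All `n`-tuples outside of a set of
Hausdorff dimension at most `2 n - 2`, and (5) all numbers outside of `E`, have the same type over all
subsets `B` of `E`. (6) For first order formulas `φ` over `B ⊆ E`, in the language of exponential fields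
with predicates for the solvability of systems in three unknowns, the set of the `n`-tuples for which `φ` is
true or its complement has Hausdorff dimension at most `2 n - 2`, and (7) for `n = 1` it is contained
in `E`. -/
theorem result (A : Set ℂ) (hA : A.Countable) :
    ∃ E : IntermediateField ℚ ℂ, A ⊆ E ∧ (E : Set ℂ).Countable ∧ Closed E ∧
      (∀ (n : ℕ) (a a' : Fin n → ℂ), SelfSufficient E a → SelfSufficient E a' →
        (SameType E a a' ↔ SameRelations E a a')) ∧
      (∀ (m : ℕ) (b : Fin m → ℂ), ∃ (n : ℕ) (a : Fin n → ℂ),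
        SelfSufficient E a ∧ ∀ j, InSpan E a (b j)) ∧
      (∀ n : ℕ, ∃ T : Set (Fin n → ℂ), T.Countable ∧ ∀ a : Fin n → ℂ, ∃ a' ∈ T, SameType E a a') ∧
      (∀ n : ℕ, ∃ N : Set (Fin n → ℂ), dimH N ≤ ((2 * n - 2 : ℕ) : ℝ≥0∞) ∧
        ∀ B ⊆ (E : Set ℂ), ∀ a ∉ N, ∀ a' ∉ N, SameType B a a') ∧
      (∀ B ⊆ (E : Set ℂ), ∀ x ∉ E, ∀ x' ∉ E,
        SameType B (fun _ : Fin 1 => x) (fun _ : Fin 1 => x')) ∧
      (∀ B ⊆ (E : Set ℂ), ∀ (n : ℕ) (φ : (L3 B).Formula (Fin n)),
        dimH (truth B φ) ≤ ((2 * n - 2 : ℕ) : ℝ≥0∞) ∨ dimH (truth B φ)ᶜ ≤ ((2 * n - 2 : ℕ) : ℝ≥0∞)) ∧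
      (∀ B ⊆ (E : Set ℂ), ∀ φ : (L3 B).Formula (Fin 1),
        (∀ x ∉ E, (fun _ : Fin 1 => x) ∈ truth B φ) ∨ ∀ x ∉ E, (fun _ : Fin 1 => x) ∉ truth B φ) := by
  let K : IntermediateField ℚ ℂ := IntermediateField.adjoin ℚ A
  have hK : Countable K := by
    have h1 : Countable (Qn.hull A) := Qn.countable_hull hA
    have h2 : K ≤ Qn.hull A := IntermediateField.adjoin_le_iff.2 (Qn.subset_hull A)
    exact (Set.countable_coe_iff.2 ((Set.countable_coe_iff.1 h1).mono h2))
  have hc : Countable (Closure.ecl K) := Closure.countable hK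
  have hE := Qn.hc_ecl K
  have hone : ∀ B ⊆ (Closure.ecl K : Set ℂ), ∀ x ∉ Closure.ecl K, ∀ x' ∉ Closure.ecl K,
      SameType B (fun _ : Fin 1 => x) (fun _ : Fin 1 => x') := by
    intro B hB x hx x' hx'
    exact sameType_iff.2 (Pool.Agent.Helper57.TU.restrictT' hB
      (Pool.Agent.Helper57.TU.iso_genT hK (Qn.gen_one hx) (Qn.gen_one hx')))
  have hgen : ∀ n : ℕ, ∃ N : Set (Fin n → ℂ), dimH N ≤ ((2 * n - 2 : ℕ) : ℝ≥0∞) ∧
      ∀ B ⊆ (Closure.ecl K : Set ℂ), ∀ a ∉ N, ∀ a' ∉ N, SameType B a a' := by
    intro n
    refine ⟨{t | ¬ Generic.Gen K t}, ?_, fun B hB a ha a' ha' => ?_⟩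
    · have h1 := Generic.dimH_bad hK n
      rwa [show 2 * (n - 1) = 2 * n - 2 by omega] at h1
    · exact sameType_iff.2 (Pool.Agent.Helper57.TU.restrictT' hB
        (Pool.Agent.Helper57.TU.iso_genT hK (not_not.1 ha) (not_not.1 ha')))
  refine ⟨Closure.ecl K, fun x hx => Closure.le_ecl (IntermediateField.subset_adjoin _ _ hx),
    Set.countable_coe_iff.1 hc, closed_iff.2 hE, ?_, ?_, ?_, hgen, hone, ?_, ?_⟩
  · intro n a a' ha ha'
    rw [ss_iff] at ha ha'
    rw [sameType_iff]
    constructor
    · rintro ⟨φ, h1, h2, h3, -⟩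
      exact (Qn.iso_iff hc hE ha.1 ha.2 ha'.2).1 ⟨φ, h1, h2, h3⟩
    · intro h
      exact Pool.Agent.Helper57.TU.isoT_of_iso hc hE ha.1 ha.2 ha'.1 ha'.2
        ((Qn.iso_iff hc hE ha.1 ha.2 ha'.2).2 h)
  · intro m b
    obtain ⟨n, a, h1, h2, h3⟩ := Qn.exists_SS Qn.schanuel b
    exact ⟨n, a, ss_iff.2 ⟨h1, h2⟩, h3⟩
  · intro n
    obtain ⟨T, h1, h2⟩ := Pool.Agent.Helper57.TU.countable_typesT hc hE Qn.schanuel n
    refine ⟨T, h1, fun a => ?_⟩
    obtain ⟨a', h3, h4⟩ := h2 a
    exact ⟨a', h3, sameType_iff.2 h4⟩
  · intro B hB n φ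
    obtain ⟨N, h1, h2⟩ := hgen n
    by_cases h : ∃ a ∉ N, a ∈ truth B φ
    · obtain ⟨a, ha, ha'⟩ := h
      right
      refine (dimH_mono ?_).trans h1
      intro b hb
      by_contra hcon
      exact hb ((truth_iff (h2 B hB a ha b hcon) φ).1 ha')
    · left
      refine (dimH_mono ?_).trans h1
      intro b hb
      by_contra hcon
      exact h ⟨b, hcon, hb⟩
  · intro B hB φ
    by_cases h : ∃ x ∉ Closure.ecl K, (fun _ : Fin 1 => x) ∈ truth B φ
    · obtain ⟨x, hx, hx'⟩ := h
      left
      intro y hy
      exact (truth_iff (hone B hB x hx y hy) φ).1 hx'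
    · right
      intro y hy hcon
      exact h ⟨y, hy, hcon⟩

end Pool.Agent.Results.MP_209724_lc.IsomorphicHulls
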